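import Mathlib
import Pool.Agent.H798.BV.Stm
import Pool.Agent.H798.BV.Stm5

set_option autoImplicit false

/-!
# The value at `a - ρ ω` as an integral of the derivative along a segment

Adapted from `Pool.Agent.H878.BV.F0` (helper878), the case `ω = 1`, `ρ = a`.
-/

open Polynomial

namespace Pool.Agent.H274.BV

open Pool.Agent.H798.BV

theorem t_F0U : S_F0U := by
  intro m z w a h hz hw ω ρ hω
  set F : ℂ[X] := ∏ j, (X - C (z j)) with hF
  have hd : ∀ u : ℝ, HasDerivAt (fun u : ℝ => F.eval (a - (u : ℂ) * ω))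
      (-(ω * (((m : ℂ) + 1) * ∏ k, (a - w k))) * ∏ k, (1 - (u : ℂ) * (ω * (a - w k)⁻¹))) u := by
    intro u
    have h1 : HasDerivAt (fun x : ℂ => F.eval (a - x * ω))
        ((derivative F).eval (a - (u : ℂ) * ω) * (-ω)) (u : ℂ) := by
      have h2 := (Polynomial.hasDerivAt F (a - (u : ℂ) * ω))
      have h3 : HasDerivAt (fun x : ℂ => a - x * ω) (-ω) (u : ℂ) := by
        simpa using ((hasDerivAt_id (u : ℂ)).mul_const ω).const_sub a
      exact h2.comp (u : ℂ) h3
    have h4 := h1.comp_ofReal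
    have h5 : (derivative F).eval (a - (u : ℂ) * ω) * (-ω) =
        -(ω * (((m : ℂ) + 1) * ∏ k, (a - w k))) * ∏ k, (1 - (u : ℂ) * (ω * (a - w k)⁻¹)) := by
      rw [h]
      simp only [eval_mul, eval_C, eval_prod, eval_sub, eval_X]
      have h6 : ∏ k, (a - (u : ℂ) * ω - w k) =
          (∏ k, (a - w k)) * ∏ k, (1 - (u : ℂ) * (ω * (a - w k)⁻¹)) := by
        rw [← Finset.prod_mul_distrib]
        refine Finset.prod_congr rfl (fun k _ => ?_)
        have hk : a - w k ≠ 0 := sub_ne_zero.2 (fun hh => hw k hh.symm)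
        have hk1 : (a - w k) * (a - w k)⁻¹ = 1 := mul_inv_cancel₀ hk
        linear_combination ((u : ℂ) * ω) * hk1
      rw [h6]
      ring
    rw [h5] at h4
    exact h4
  have hcont : Continuous (fun u : ℝ =>
      -(ω * (((m : ℂ) + 1) * ∏ k, (a - w k))) * ∏ k, (1 - (u : ℂ) * (ω * (a - w k)⁻¹))) := by
    refine continuous_const.mul (continuous_finsetProd _ (fun k _ => ?_))
    exact continuous_const.sub (Complex.continuous_ofReal.mul continuous_const)
  have hint := intervalIntegral.integral_eq_sub_of_hasDerivAt (a := (0 : ℝ)) (b := ρ)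
    (fun u _ => hd u) (hcont.intervalIntegrable _ _)
  rw [intervalIntegral.integral_const_mul] at hint
  have h7 : F.eval (a - ((0 : ℝ) : ℂ) * ω) = 0 := by
    rw [hF, eval_prod]
    refine Finset.prod_eq_zero (Finset.mem_univ 0) ?_
    simp [hz]
  have h8 : F.eval (a - (ρ : ℂ) * ω) = ∏ j, (a - (ρ : ℂ) * ω - z j) := by
    rw [hF, eval_prod]
    refine Finset.prod_congr rfl (fun j _ => ?_)
    simp
  have h10 : ‖(m : ℂ) + 1‖ = (m : ℝ) + 1 := by
    have h11 : ((m : ℂ) + 1) = (((m + 1 : ℕ) : ℕ) : ℂ) := by push_cast; rfl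
    rw [h11, Complex.norm_natCast]
    push_cast
    rfl
  rw [h7, h8, sub_zero] at hint
  rw [← norm_prod, ← hint, norm_mul, norm_neg, norm_mul, norm_mul, norm_prod, hω, one_mul, h10]

end Pool.Agent.H274.BV
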